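import Pool.Agent.H742.AC6.Stm2

/-!
# `Sigma_3` sets of zero-dimensional Polish spaces: finitely many zeros of continuous functions
-/

set_option autoImplicit false
set_option linter.unusedSectionVars false

namespace Pool.Agent.H742.AC6

open Set Topology TopologicalSpace

universe u

namespace SIGMA

variable {Z : Type u} [TopologicalSpace Z]

/-- The sets `V n \ ⋃ m < n, V m`. -/
def dj (V : ℕ → Set Z) (n : ℕ) : Set Z := V n \ ⋃ m ∈ Iio n, V m

theorem dj_sub (V : ℕ → Set Z) (n : ℕ) : dj V n ⊆ V n := fun _ h => h.1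

theorem dj_uniq {V : ℕ → Set Z} {n m : ℕ} {z : Z} (hn : z ∈ dj V n) (hm : z ∈ dj V m) : n = m := by
  rcases lt_trichotomy n m with h | h | h
  · exact absurd (mem_iUnion₂.2 ⟨n, h, dj_sub V n hn⟩) hm.2
  · exact h
  · exact absurd (mem_iUnion₂.2 ⟨m, h, dj_sub V m hm⟩) hn.2

theorem dj_exists {V : ℕ → Set Z} {z : Z} (h : ∃ n, z ∈ V n) : ∃ n, z ∈ dj V n := by
  classical
  refine ⟨Nat.find h, Nat.find_spec h, ?_⟩
  intro h1
  obtain ⟨m, hm, hz⟩ := mem_iUnion₂.1 h1
  exact Nat.find_min h hm hz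

/-- An open set of a zero-dimensional second countable space is a countable disjoint union of clopen
sets. -/
theorem open_disj [SecondCountableTopology Z] (hZ : IsTopologicalBasis {s : Set Z | IsClopen s})
    (U : Set Z) (hU : IsOpen U) :
    ∃ W : ℕ → Set Z, (∀ n, IsClosed (W n)) ∧ (∀ n m z, z ∈ W n → z ∈ W m → n = m) ∧
      ∀ z, z ∈ U ↔ ∃ n, z ∈ W n := by
  obtain ⟨T, hT1, hT2, hT3⟩ := isOpen_sUnion_countable {s : Set Z | IsClopen s ∧ s ⊆ U}
    (fun s hs => hs.1.isOpen)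
  have hU2 : ⋃₀ {s : Set Z | IsClopen s ∧ s ⊆ U} = U := by
    apply Subset.antisymm
    · exact sUnion_subset fun s hs => hs.2
    · intro z hz
      obtain ⟨s, hs, hzs, hsU⟩ := hZ.exists_subset_of_mem_open hz hU
      exact mem_sUnion.2 ⟨s, ⟨hs, hsU⟩, hzs⟩
  obtain ⟨V, hV⟩ := (hT1.insert (∅ : Set Z)).exists_eq_range (insert_nonempty ∅ T)
  have hVc : ∀ n, IsClopen (V n) := by
    intro n
    have h1 : V n ∈ insert (∅ : Set Z) T := by rw [hV]; exact mem_range_self n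
    rcases h1 with h1 | h1
    · rw [h1]; exact isClopen_empty
    · exact (hT2 h1).1
  refine ⟨dj V, ?_, fun n m z hn hm => dj_uniq hn hm, ?_⟩
  · intro n
    exact ((hVc n).diff ((finite_Iio n).isClopen_biUnion (fun m _ => hVc m))).isClosed
  · intro z
    rw [← hU2, ← hT3]
    constructor
    · rintro ⟨s, hs, hz⟩
      have h1 : s ∈ range V := by rw [← hV]; exact mem_insert_of_mem _ hs
      obtain ⟨n, rfl⟩ := h1
      exact dj_exists ⟨n, hz⟩
    · rintro ⟨n, hn⟩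
      have h1 : V n ∈ insert (∅ : Set Z) T := by rw [hV]; exact mem_range_self n
      have hz := dj_sub V n hn
      rcases h1 with h1 | h1
      · rw [h1] at hz
        exact absurd hz (notMem_empty z)
      · exact ⟨V n, h1, hz⟩

/-- An `F_σ` set is a countable disjoint union of closed sets. -/
theorem sigma_disj [SecondCountableTopology Z] (hZ : IsTopologicalBasis {s : Set Z | IsClopen s})
    (A : Set Z) (hA : IsSigma2 A) :
    ∃ D : ℕ × ℕ → Set Z, (∀ p, IsClosed (D p)) ∧ (∀ p p' z, z ∈ D p → z ∈ D p' → p = p') ∧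
      ∀ z, z ∈ A ↔ ∃ p, z ∈ D p := by
  obtain ⟨F, hF, hAF⟩ := hA
  have hopen : ∀ n, IsOpen (⋃ m ∈ Iio n, F m)ᶜ := fun n =>
    ((finite_Iio n).isClosed_biUnion (fun m _ => hF m)).isOpen_compl
  choose W hW1 hW2 hW3 using fun n => open_disj hZ _ (hopen n)
  refine ⟨fun p => F p.1 ∩ W p.1 p.2, fun p => (hF p.1).inter (hW1 p.1 p.2), ?_, ?_⟩
  · rintro ⟨n, k⟩ ⟨n', k'⟩ z hz hz'
    have h1 : z ∈ dj F n := ⟨hz.1, (hW3 n z).2 ⟨k, hz.2⟩⟩
    have h2 : z ∈ dj F n' := ⟨hz'.1, (hW3 n' z).2 ⟨k', hz'.2⟩⟩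
    have h3 : n = n' := dj_uniq h1 h2
    subst h3
    have h4 : k = k' := hW2 n k k' z hz.2 hz'.2
    rw [h4]
  · intro z
    rw [hAF, mem_iUnion]
    constructor
    · intro h
      obtain ⟨n, hn⟩ := dj_exists h
      obtain ⟨k, hk⟩ := (hW3 n z).1 hn.2
      exact ⟨(n, k), hn.1, hk⟩
    · rintro ⟨p, hp⟩
      exact ⟨p.1, hp.1⟩

theorem sigma_inter {A B : Set Z} (hA : IsSigma2 A) (hB : IsSigma2 B) : IsSigma2 (A ∩ B) := by
  obtain ⟨F, hF, hAF⟩ := hA
  obtain ⟨G, hG, hBG⟩ := hB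
  refine ⟨fun n => F n.unpair.1 ∩ G n.unpair.2, fun n => (hF _).inter (hG _), ?_⟩
  ext z
  rw [hAF, hBG]
  simp only [mem_inter_iff, mem_iUnion]
  constructor
  · rintro ⟨⟨n, hn⟩, m, hm⟩
    refine ⟨Nat.pair n m, ?_⟩
    rw [Nat.unpair_pair]
    exact ⟨hn, hm⟩
  · rintro ⟨n, hn⟩
    exact ⟨⟨_, hn.1⟩, _, hn.2⟩

/-- The finite intersections. -/
def fi (A : ℕ → Set Z) (M : ℕ) : Set Z := {z | ∀ i ≤ M, z ∈ A i}

theorem fi_sigma {A : ℕ → Set Z} (hA : ∀ n, IsSigma2 (A n)) (M : ℕ) : IsSigma2 (fi A M) := by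
  induction M with
  | zero =>
    have h1 : fi A 0 = A 0 := by
      ext z
      exact ⟨fun h => h 0 le_rfl, fun h i hi => by rwa [Nat.le_zero.1 hi]⟩
    rw [h1]
    exact hA 0
  | succ M ih =>
    have h1 : fi A (M + 1) = fi A M ∩ A (M + 1) := by
      ext z
      constructor
      · exact fun h => ⟨fun i hi => h i (Nat.le_succ_of_le hi), h _ le_rfl⟩
      · rintro ⟨h, h'⟩ i hi
        rcases Nat.le_succ_iff.1 hi with h2 | h2
        · exact h i h2
        · rwa [h2]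
    rw [h1]
    exact sigma_inter ih (hA (M + 1))

/-- A closed set is the zero set of a continuous function. -/
theorem zero_set [MetrizableSpace Z] (D : Set Z) (hD : IsClosed D) :
    ∃ g : Z → ℝ, Continuous g ∧ (∀ z, g z ∈ Icc (0 : ℝ) 1) ∧ ∀ z, g z = 0 ↔ z ∈ D := by
  let mZ : MetricSpace Z := metrizableSpaceMetric Z
  rcases D.eq_empty_or_nonempty with h | h
  · refine ⟨fun _ => 1, continuous_const, fun _ => ⟨zero_le_one, le_rfl⟩, fun z => ?_⟩
    rw [h]
    exact ⟨fun h1 => absurd h1 one_ne_zero, fun h1 => absurd h1 (notMem_empty z)⟩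
  · refine ⟨fun z => min 1 (Metric.infDist z D), continuous_const.min (Metric.continuous_infDist_pt D),
      fun z => ⟨le_min zero_le_one Metric.infDist_nonneg, min_le_left _ _⟩, fun z => ?_⟩
    rw [hD.mem_iff_infDist_zero h]
    constructor
    · intro h1
      have h3 : min 1 (Metric.infDist z D) = 0 := h1
      rcases min_choice (1 : ℝ) (Metric.infDist z D) with h2 | h2
      · exact absurd (h2.symm.trans h3) one_ne_zero
      · exact h2.symm.trans h3
    · intro h1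
      show min 1 (Metric.infDist z D) = 0
      rw [h1]
      exact min_eq_right zero_le_one

end SIGMA

theorem t_SIGMA : S_SIGMA.{u} := by
  intro Z _ _ hZ B hB
  obtain ⟨P, hP, hBP⟩ := hB
  choose U hU hPU using hP
  -- the complement
  have hA : ∀ n, IsSigma2 (P n)ᶜ := by
    intro n
    refine ⟨fun m => (U n m)ᶜ, fun m => (hU n m).isClosed_compl, ?_⟩
    rw [hPU n, compl_iInter]
  choose D hD1 hD2 hD3 using fun M => SIGMA.sigma_disj hZ _ (SIGMA.fi_sigma hA M)
  choose g hg1 hg2 hg3 using fun p : ℕ × ℕ × ℕ => SIGMA.zero_set _ (hD1 p.1 p.2)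
  let e : ℕ ≃ ℕ × ℕ × ℕ := (Denumerable.eqv (ℕ × ℕ × ℕ)).symm
  refine ⟨fun n => g (e n), fun n => hg1 _, fun n z => hg2 _ z, ?_⟩
  intro z
  have h1 : {n : ℕ | g (e n) z = 0}.Finite ↔ {p : ℕ × ℕ × ℕ | z ∈ D p.1 p.2}.Finite := by
    have h2 : {n : ℕ | g (e n) z = 0} = e ⁻¹' {p : ℕ × ℕ × ℕ | z ∈ D p.1 p.2} := by
      ext n
      exact hg3 (e n) z
    rw [h2]
    constructor
    · intro h3
      have h4 := h3.image e
      rwa [image_preimage_eq _ e.surjective] at h4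
    · intro h3
      exact h3.preimage e.injective.injOn
  rw [h1]
  constructor
  · intro hz
    -- `z` is not in some `fi`
    rw [hBP, mem_iUnion] at hz
    obtain ⟨M₀, hM₀⟩ := hz
    have h2 : ∀ M, M₀ ≤ M → z ∉ SIGMA.fi (fun n => (P n)ᶜ) M := fun M hM h3 => h3 M₀ hM hM₀
    refine Set.Finite.of_finite_image (f := Prod.fst) ((finite_Iio M₀).subset ?_) ?_
    · rintro _ ⟨p, hp, rfl⟩
      by_contra h3
      exact h2 p.1 (not_lt.1 h3) ((hD3 p.1 z).2 ⟨p.2, hp⟩)
    · rintro ⟨M, p⟩ hp ⟨M', p'⟩ hp' h3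
      have h4 : M = M' := h3
      subst h4
      have h5 : p = p' := hD2 M p p' z hp hp'
      rw [h5]
  · intro hfin
    by_contra hz
    have h2 : ∀ M, ∃ p, z ∈ D M p := by
      intro M
      refine (hD3 M z).1 ?_
      intro i _ hi
      apply hz
      rw [hBP]
      exact mem_iUnion.2 ⟨i, hi⟩
    choose p hp using h2
    refine Set.infinite_of_injective_forall_mem (f := fun M : ℕ => (M, p M)) ?_ (fun M => hp M) hfin
    intro M M' h3
    exact (Prod.ext_iff.1 h3).1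

end Pool.Agent.H742.AC6
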